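import Pool.Agent.H61.AR.All
import Pool.Agent.H60.CM.Stmt

/-!
# The area of surfaces of constant mean curvature spanning a circle
-/

set_option autoImplicit false

open Set Function MeasureTheory
open scoped Manifold ContDiff

namespace Pool.Agent.Results.MP_d9d403_gt.AreaInequality

open Pool.Agent.H60.CM

theorem result :
    ∀ (S : Type) [TopologicalSpace S] [ChartedSpace (EuclideanHalfSpace 2) S]
      [IsManifold (𝓡∂ 2) ∞ S] [T2Space S] [CompactSpace S] [ConnectedSpace S] [MeasurableSpace S]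
      [BorelSpace S] (x N : S → V3) (H r : ℝ) (μ : Measure S) [IsFiniteMeasure μ],
      CmcSurface x N H r μ → ∀ A k : ℝ, A = (μ ((𝓡∂ 2).interior S)).toReal →
      k = Real.sqrt (1 - r ^ 2 * H ^ 2) →
      (∀ y ∈ circ r, ∀ F : Finset S, (∀ p ∈ F, p ∈ (𝓡∂ 2).interior S ∧ x p = y) →
        2 * Real.pi * (2 * F.card + 1 - k) ≤ H ^ 2 * A) ∧
      (H ^ 2 * A = 2 * Real.pi * (1 - k) → Injective x ∧
        ((H = 0 ∧ range x = planarDisc r) ∨
          (H ≠ 0 ∧ ∃ c σ : ℝ, (σ = 1 ∨ σ = -1) ∧ σ * c ≤ 0 ∧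
            range x = sphCap c (1 / |H|) σ))) := by
  intro S _ _ _ _ _ _ _ _ x N H r μ _ hc A k hA hk
  let D : Dat := { S := S, x := x, N := N, H := H, r := r, μ := μ, cmc := hc.cmc }
  obtain ⟨f1, f2, f3, f4⟩ := Pool.Agent.H61.AR.All.fin D
  have hDA : Pool.Agent.H61.AR.ar D = A := hA.symm
  have hDk : Real.sqrt (1 - D.r ^ 2 * D.H ^ 2) = k := hk.symm
  rw [hDA, hDk] at f2
  rw [hDA, hDk] at f4
  refine ⟨?_, ?_⟩
  · intro y hy F hF
    exact f4 y hy F (fun p hp => (hF p hp).2) (fun p hp => (hF p hp).1)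
  · intro he
    by_cases hH : H = 0
    · obtain ⟨h1, h2⟩ := Pool.Agent.H61.AR.All.cp0 D hH
      exact ⟨h1, Or.inl ⟨hH, h2⟩⟩
    · obtain ⟨h1, h2⟩ := f2 hH he.le
      exact ⟨h1, Or.inr ⟨hH, h2⟩⟩

end Pool.Agent.Results.MP_d9d403_gt.AreaInequality
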