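import Pool.Agent.H60.CM.All
import Pool.Agent.H60.CM.Stmt

/-!
# Stable surfaces of constant mean curvature spanning a circle, with a mirror symmetry
-/

set_option autoImplicit false

open Set Function MeasureTheory
open scoped Manifold ContDiff

namespace Pool.Agent.Results.MP_d9d403_gt.MirrorSymmetricStable

open Pool.Agent.H60.CM

theorem result :
    ∀ (S : Type) [TopologicalSpace S] [ChartedSpace (EuclideanHalfSpace 2) S]
      [IsManifold (𝓡∂ 2) ∞ S] [T2Space S] [CompactSpace S] [ConnectedSpace S] [MeasurableSpace S]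
      [BorelSpace S] (x N : S → V3) (H r : ℝ) (μ : Measure S) [IsFiniteMeasure μ],
      CmcSurface x N H r μ → Stable x N μ →
      ∀ τ : Diffeomorph (𝓡∂ 2) (𝓡∂ 2) S S ∞, MirrorSym x τ →
      (OneSided x N ∨ RotInv x) → DiscOrCap x H r := by
  intro S _ _ _ _ _ _ _ _ x N H r μ _ hc hs τ hτ hcase
  obtain ⟨h1, h2⟩ := All.all S x N H r μ hc.cmc hs τ hτ.1 hτ.2.1 hτ.2.2 hcase
  refine ⟨h1, ?_⟩
  rcases h2 with ⟨h0, h3⟩ | ⟨h0, c, h3 | h3⟩
  · exact Or.inl ⟨h0, h3⟩
  · exact Or.inr ⟨h0, c, 1, Or.inl rfl, h3⟩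
  · exact Or.inr ⟨h0, c, -1, Or.inr rfl, h3⟩

end Pool.Agent.Results.MP_d9d403_gt.MirrorSymmetricStable
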