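import Pool.Agent.H61.AR.All
import Pool.Agent.H60.CM.Stmt

/-!
# The multiplicity of surfaces of constant mean curvature spanning a circle
-/

set_option autoImplicit false

open Set Function MeasureTheory
open scoped Manifold ContDiff

namespace Pool.Agent.Results.MP_d9d403_gt.Multiplicity

open Pool.Agent.H60.CM

theorem result :
    ∀ (S : Type) [TopologicalSpace S] [ChartedSpace (EuclideanHalfSpace 2) S]
      [IsManifold (𝓡∂ 2) ∞ S] [T2Space S] [CompactSpace S] [ConnectedSpace S] [MeasurableSpace S]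
      [BorelSpace S] (x N : S → V3) (H r : ℝ) (μ : Measure S) [IsFiniteMeasure μ],
      CmcSurface x N H r μ → ∀ A : ℝ, A = (μ ((𝓡∂ 2).interior S)).toReal →
      ∀ (y : V3) (F : Finset S), (∀ p ∈ F, x p = y) →
        (F.card : ℝ) ≤ 1 + H ^ 2 * A / (4 * Real.pi) := by
  intro S _ _ _ _ _ _ _ _ x N H r μ _ hc A hA y F hF
  let D : Dat := { S := S, x := x, N := N, H := H, r := r, μ := μ, cmc := hc.cmc }
  obtain ⟨f1, f2, f3, f4⟩ := Pool.Agent.H61.AR.All.fin D
  have hDA : Pool.Agent.H61.AR.ar D = A := hA.symm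
  rw [hDA] at f3
  have hpi := Real.pi_pos
  have h := f3 y F hF
  have h' : (4 * Real.pi) * (F.card : ℝ) ≤ (4 * Real.pi) * (1 + H ^ 2 * A / (4 * Real.pi)) := by
    rw [mul_add, mul_div_cancel₀ _ (by positivity)]
    have h2 : 4 * Real.pi * (F.card : ℝ) ≤ H ^ 2 * A + 4 * Real.pi := h
    linarith
  exact le_of_mul_le_mul_left h' (by positivity)

end Pool.Agent.Results.MP_d9d403_gt.Multiplicity
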